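import Pool.Agent.Lib.MP_dd8365_nt.MainU

set_option autoImplicit false

open SAFS

namespace Pool.Agent.Results.MP_dd8365_nt.ClosurePurity

/-- Arithmetic purity of the closure of the rational points. Let `K` be a number field, `S` a
finite nonempty set of places, `U = V(P) \ V(I0)` a quasi-affine variety, `X = U / G_m^r` (the
torus acts diagonally with weights `W`; `X = U` for `r = 0`), `Z` the closed subset of `X` given
by `I ≤ I0`. Let `𝒟` be a set of locally nilpotent `K`-derivations of `K[x] / P` which preserves
`I0`. Suppose that every point of `V(I) ∩ U` which lies on a `𝒟`-stable irreducible closed subset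
has codimension at least two in it. Then an adelic point of `X \ Z` is in the closure of the
`K`-points of `X \ Z` if and only if it is in the closure of the `K`-points of `X`. -/
theorem result :
    ∀ (K : Type) [Field K] [NumberField K] (N r : ℕ) (W : Fin N → Fin r → ℤ)
      (P I0 I : Ideal (MvPolynomial (Fin N) K)) [P.IsPrime],
      Homog W P → Homog W I0 → Homog W I → ∀ hI : I ≤ I0,
      ∀ 𝒟 : Set (Derivation K (Coord P) (Coord P)), LocNil 𝒟 →
      Stable 𝒟 (Coord.ideal P I0) → CodTwo 𝒟 (Coord.ideal P I) (Coord.ideal P I0) →
      ∀ S : Set (Place K), S.Finite → S.Nonempty →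
        closure (Rat W P I S) = Adelic.incl hI ⁻¹' closure (Rat W P I0 S) := by
  intro K _ _ N r W P I0 I _ hP hI0 hIh hI 𝒟 hnil hst hZ S hS hne
  exact main W P I0 I hP hI0 hIh hI 𝒟 hnil hst hZ S hS hne

end Pool.Agent.Results.MP_dd8365_nt.ClosurePurity
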